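import Mathlib

/-!
# Nine linear maps of the plane which act like a free set on the open unit square
-/

set_option autoImplicit false

open Set

namespace Pool.Agent.Q91.Sq

/-- A valuation of the field of real numbers which extends the `67`-adic one. -/
theorem exists_valuation : ∃ B : ValuationSubring ℝ, (∀ n : ℤ, B.valuation (n : ℝ) ≤ 1) ∧
    B.valuation (67 : ℝ) < 1 ∧ ∀ n : ℤ, ¬ (67 : ℤ) ∣ n → B.valuation (n : ℝ) = 1 := by
  let A : Subring ℝ := (Int.castRingHom ℝ).range
  let I : Ideal A := Ideal.span {⟨67, ⟨67, by simp⟩⟩}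
  have hI : I ≠ ⊤ := by
    rw [Ideal.ne_top_iff_one]
    intro h
    rw [Ideal.mem_span_singleton] at h
    obtain ⟨⟨x, ⟨n, rfl⟩⟩, hx⟩ := h
    have h1 := congrArg Subtype.val hx
    have h2 : (1 : ℝ) = 67 * (n : ℝ) := by simpa using h1
    have h3 : (1 : ℤ) = 67 * n := by exact_mod_cast h2
    omega
  obtain ⟨B, hB1, hB2⟩ := Ideal.image_subset_nonunits_valuationSubring I hI
  have hint : ∀ n : ℤ, B.valuation (n : ℝ) ≤ 1 := fun n => by
    rw [ValuationSubring.valuation_le_one_iff]
    exact hB1 ⟨n, by simp⟩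
  have h67 : B.valuation (67 : ℝ) < 1 := by
    have : (67 : ℝ) ∈ B.nonunits := hB2 ⟨⟨67, ⟨67, by simp⟩⟩, Ideal.subset_span rfl, rfl⟩
    exact (ValuationSubring.mem_nonunits_iff B).mp this
  refine ⟨B, hint, h67, fun n hn => ?_⟩
  refine le_antisymm (hint n) (not_lt.mp fun hlt => ?_)
  have hp : Prime (67 : ℤ) := by
    rw [Int.prime_iff_natAbs_prime]
    norm_num
  have hcop : IsCoprime (67 : ℤ) n := (Prime.coprime_iff_not_dvd hp).mpr hn
  obtain ⟨a, b, hab⟩ := hcop
  have h1 : (1 : ℝ) = (a : ℝ) * 67 + (b : ℝ) * n := by exact_mod_cast hab.symm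
  have h2 : B.valuation (1 : ℝ) < 1 := by
    rw [h1]
    refine lt_of_le_of_lt (B.valuation.map_add _ _) (max_lt ?_ ?_)
    · rw [map_mul]
      exact lt_of_le_of_lt (mul_le_mul_left (hint a) _) (by rwa [one_mul])
    · rw [map_mul]
      exact lt_of_le_of_lt (mul_le_mul_left (hint b) _) (by rwa [one_mul])
  rw [map_one] at h2
  exact lt_irrefl _ h2

/-- the entries of the nine matrices, multiplied by `67` -/
def mA : Fin 9 → ℤ := ![69, 69, 68, 23, 21, 59, 122, 143, 217]
/-- the entries of the nine matrices, multiplied by `67` -/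
def mB : Fin 9 → ℤ := ![-16, -17, -9, 113, 110, 20, 21, 6, 1]
/-- the entries of the nine matrices, multiplied by `67` -/
def mC : Fin 9 → ℤ := ![-17, -16, -15, 2, 1, 44, 7, 86, 68]
/-- the entries of the nine matrices, multiplied by `67` -/
def mD : Fin 9 → ℤ := ![69, 69, 68, 205, 219, 91, 38, 35, 21]

theorem det_eq (i : Fin 9) : mA i * mD i - mB i * mC i = 67 ^ 2 := by
  revert i
  decide

/-- first rows of the matrices and of their inverses -/
def row (r : Fin 9 × Bool) : ℤ × ℤ := if r.2 then (mD r.1, - mB r.1) else (mA r.1, mB r.1)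

theorem row_ne (r r' : Fin 9 × Bool) (h : r ≠ r') :
    ¬ (67 : ℤ) ∣ (row r).1 * (row r').2 - (row r').1 * (row r).2 := by
  revert r r'
  decide +kernel

/-- the nine matrices -/
noncomputable def mat (i : Fin 9) : Matrix.SpecialLinearGroup (Fin 2) ℝ :=
  ⟨!![(mA i : ℝ) / 67, (mB i : ℝ) / 67; (mC i : ℝ) / 67, (mD i : ℝ) / 67], by
    rw [Matrix.det_fin_two_of]
    have h := det_eq i
    have h1 : (mA i : ℝ) * mD i - mB i * mC i = 67 ^ 2 := by exact_mod_cast h
    field_simp
    linarith⟩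

/-- the action on the plane -/
noncomputable def act (i : Fin 9) (w : Fin 2 → ℝ) : Fin 2 → ℝ :=
  Matrix.mulVec (mat i : Matrix (Fin 2) (Fin 2) ℝ) w

theorem act_zero (i : Fin 9) (w : Fin 2 → ℝ) : act i w 0 = ((mA i : ℝ) * w 0 + mB i * w 1) / 67 := by
  simp [act, mat, Matrix.mulVec, dotProduct, Fin.sum_univ_two]
  ring

theorem act_one (i : Fin 9) (w : Fin 2 → ℝ) : act i w 1 = ((mC i : ℝ) * w 0 + mD i * w 1) / 67 := by
  simp [act, mat, Matrix.mulVec, dotProduct, Fin.sum_univ_two]
  ring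

theorem inv_zero (i : Fin 9) (w : Fin 2 → ℝ) :
    w 0 = ((mD i : ℝ) * act i w 0 - mB i * act i w 1) / 67 := by
  rw [act_zero, act_one]
  have h := det_eq i
  have h1 : (mA i : ℝ) * mD i - mB i * mC i = 67 ^ 2 := by exact_mod_cast h
  field_simp
  linear_combination (-w 0) * h1

theorem act_inj (i : Fin 9) : Function.Injective (act i) := by
  intro w w' h
  have h0 := inv_zero i w
  have h0' := inv_zero i w'
  rw [h, ← h0'] at h0
  have h1 : w 1 = w' 1 := by
    have e : ∀ w : Fin 2 → ℝ, w 1 = ((mA i : ℝ) * act i w 1 - mC i * act i w 0) / 67 := by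
      intro w
      rw [act_zero, act_one]
      have h := det_eq i
      have h1 : (mA i : ℝ) * mD i - mB i * mC i = 67 ^ 2 := by exact_mod_cast h
      field_simp
      linear_combination (-w 1) * h1
    rw [e w, e w', h]
  funext k
  fin_cases k
  · exact h0
  · exact h1

end Pool.Agent.Q91.Sq
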