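import Pool.Agent.Q91.Sq.Basic

/-!
# The open unit square is paradoxical
-/

set_option autoImplicit false

open Set

namespace Pool.Agent.Q91.Sq

/-- the open unit square -/
def Q : Set (Fin 2 → ℝ) := {v | ∀ k, 0 < v k ∧ v k < 1}

section
variable (B : ValuationSubring ℝ)

/-- the size of a vector -/
noncomputable def N (w : Fin 2 → ℝ) : B.ValueGroup := max (B.valuation (w 0)) (B.valuation (w 1))

theorem excl (h1 : ∀ n : ℤ, B.valuation (n : ℝ) ≤ 1) (h2 : B.valuation (67 : ℝ) < 1)
    (h3 : ∀ n : ℤ, ¬ (67 : ℤ) ∣ n → B.valuation (n : ℝ) = 1) (w : Fin 2 → ℝ) (hw : w ≠ 0)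
    (r r' : Fin 9 × Bool)
    (hr : B.valuation ((((row r).1 : ℝ) * w 0 + (row r).2 * w 1) / 67) ≤ N B w)
    (hr' : B.valuation ((((row r').1 : ℝ) * w 0 + (row r').2 * w 1) / 67) ≤ N B w) : r = r' := by
  by_contra hne
  have hΔ := h3 _ (row_ne r r' hne)
  obtain ⟨a, ha⟩ : ∃ a : ℤ, a = (row r).1 := ⟨_, rfl⟩
  obtain ⟨b, hb⟩ : ∃ b : ℤ, b = (row r).2 := ⟨_, rfl⟩
  obtain ⟨a', ha'⟩ : ∃ a : ℤ, a = (row r').1 := ⟨_, rfl⟩
  obtain ⟨b', hb'⟩ : ∃ b : ℤ, b = (row r').2 := ⟨_, rfl⟩
  rw [← ha, ← hb, ← ha', ← hb'] at hΔ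
  rw [← ha, ← hb] at hr
  rw [← ha', ← hb'] at hr'
  obtain ⟨p, hp⟩ : ∃ p : ℝ, p = (a : ℝ) * w 0 + b * w 1 := ⟨_, rfl⟩
  obtain ⟨q, hq⟩ : ∃ q : ℝ, q = (a' : ℝ) * w 0 + b' * w 1 := ⟨_, rfl⟩
  rw [← hp] at hr
  rw [← hq] at hr'
  have h67 : ∀ x : ℝ, B.valuation (x / 67) ≤ N B w → B.valuation x ≤ B.valuation 67 * N B w := by
    intro x hx
    have e : x = 67 * (x / 67) := by ring
    calc B.valuation x = B.valuation 67 * B.valuation (x / 67) := by
          conv_lhs => rw [e]
          rw [map_mul]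
      _ ≤ _ := mul_le_mul_right hx _
  have hp' := h67 p hr
  have hq' := h67 q hr'
  have hint : ∀ (n : ℤ) (x : ℝ), B.valuation x ≤ B.valuation 67 * N B w →
      B.valuation ((n : ℝ) * x) ≤ B.valuation 67 * N B w := by
    intro n x hx
    rw [map_mul]
    calc B.valuation (n : ℝ) * B.valuation x ≤ 1 * B.valuation x := mul_le_mul_left (h1 n) _
      _ ≤ _ := by rwa [one_mul]
  have e0 : ((a * b' - a' * b : ℤ) : ℝ) * w 0 = (b' : ℝ) * p - (b : ℝ) * q := by
    rw [hp, hq]
    push_cast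
    ring
  have e1 : ((a * b' - a' * b : ℤ) : ℝ) * w 1 = (a : ℝ) * q - (a' : ℝ) * p := by
    rw [hp, hq]
    push_cast
    ring
  have k0 : B.valuation (w 0) ≤ B.valuation 67 * N B w := by
    have : B.valuation (((a * b' - a' * b : ℤ) : ℝ) * w 0) ≤ B.valuation 67 * N B w := by
      rw [e0]
      exact (B.valuation.map_sub _ _).trans (max_le (hint _ _ hp') (hint _ _ hq'))
    rwa [map_mul, hΔ, one_mul] at this
  have k1 : B.valuation (w 1) ≤ B.valuation 67 * N B w := by
    have : B.valuation (((a * b' - a' * b : ℤ) : ℝ) * w 1) ≤ B.valuation 67 * N B w := by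
      rw [e1]
      exact (B.valuation.map_sub _ _).trans (max_le (hint _ _ hq') (hint _ _ hp'))
    rwa [map_mul, hΔ, one_mul] at this
  have hN : N B w ≤ B.valuation 67 * N B w := max_le k0 k1
  have hN0 : N B w ≠ 0 := by
    intro h0
    apply hw
    have g0 : B.valuation (w 0) ≤ 0 := h0 ▸ le_max_left _ _
    have g1 : B.valuation (w 1) ≤ 0 := h0 ▸ le_max_right _ _
    rw [le_zero_iff, map_eq_zero] at g0 g1
    funext k
    fin_cases k
    · exact g0
    · exact g1
  have hpos : 0 < N B w := zero_lt_iff.mpr hN0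
  have : B.valuation 67 * N B w < 1 * N B w := mul_lt_mul_of_pos_right h2 hpos
  rw [one_mul] at this
  exact absurd hN (not_le.mpr this)

end

theorem three (w : Fin 2 → ℝ) (hw : w ∈ Q) :
    ∃ s : Finset (Fin 9), s.card = 3 ∧ ∀ i ∈ s, act i w ∈ Q := by
  obtain ⟨h00, h01⟩ := hw 0
  obtain ⟨h10, h11⟩ := hw 1
  have key : ∀ (i : Fin 9) (a b c d : ℤ), mA i = a → mB i = b → mC i = c → mD i = d →
      (0 < (a : ℝ) * w 0 + b * w 1 ∧ (a : ℝ) * w 0 + b * w 1 < 67) →
      (0 < (c : ℝ) * w 0 + d * w 1 ∧ (c : ℝ) * w 0 + d * w 1 < 67) → act i w ∈ Q := by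
    rintro i a b c d rfl rfl rfl rfl ⟨h0, h0'⟩ ⟨h1, h1'⟩ k
    fin_cases k
    · show 0 < act i w 0 ∧ act i w 0 < 1
      rw [act_zero, div_lt_one (by norm_num)]
      exact ⟨by positivity, h0'⟩
    · show 0 < act i w 1 ∧ act i w 1 < 1
      rw [act_one, div_lt_one (by norm_num)]
      exact ⟨by positivity, h1'⟩
  by_cases c1 : w 1 < 1 / 4
  · refine ⟨{3, 4, 5}, rfl, ?_⟩
    intro i hi
    simp only [Finset.mem_insert, Finset.mem_singleton] at hi
    rcases hi with rfl | rfl | rfl
    · exact key 3 (23) (113) (2) (205) rfl rfl rfl rfl (by constructor <;> push_cast <;> linarith)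
        (by constructor <;> push_cast <;> linarith)
    · exact key 4 (21) (110) (1) (219) rfl rfl rfl rfl (by constructor <;> push_cast <;> linarith)
        (by constructor <;> push_cast <;> linarith)
    · exact key 5 (59) (20) (44) (91) rfl rfl rfl rfl (by constructor <;> push_cast <;> linarith)
        (by constructor <;> push_cast <;> linarith)
  · by_cases c0 : w 0 < 1 / 4
    · refine ⟨{6, 7, 8}, rfl, ?_⟩
      intro i hi
      simp only [Finset.mem_insert, Finset.mem_singleton] at hi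
      rcases hi with rfl | rfl | rfl
      · exact key 6 (122) (21) (7) (38) rfl rfl rfl rfl (by constructor <;> push_cast <;> linarith)
          (by constructor <;> push_cast <;> linarith)
      · exact key 7 (143) (6) (86) (35) rfl rfl rfl rfl (by constructor <;> push_cast <;> linarith)
          (by constructor <;> push_cast <;> linarith)
      · exact key 8 (217) (1) (68) (21) rfl rfl rfl rfl (by constructor <;> push_cast <;> linarith)
          (by constructor <;> push_cast <;> linarith)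
    · push Not at c0 c1
      refine ⟨{0, 1, 2}, rfl, ?_⟩
      intro i hi
      simp only [Finset.mem_insert, Finset.mem_singleton] at hi
      rcases hi with rfl | rfl | rfl
      · exact key 0 (69) (-16) (-17) (69) rfl rfl rfl rfl (by constructor <;> push_cast <;> linarith)
          (by constructor <;> push_cast <;> linarith)
      · exact key 1 (69) (-17) (-16) (69) rfl rfl rfl rfl (by constructor <;> push_cast <;> linarith)
          (by constructor <;> push_cast <;> linarith)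
      · exact key 2 (68) (-9) (-15) (68) rfl rfl rfl rfl (by constructor <;> push_cast <;> linarith)
          (by constructor <;> push_cast <;> linarith)

theorem Q_ne_zero {w : Fin 2 → ℝ} (hw : w ∈ Q) : w ≠ 0 := by
  rintro rfl
  have := (hw 0).1
  simp at this

/-- the counting argument -/
theorem comb {α ι : Type*} [DecidableEq α] [Fintype ι] [DecidableEq ι] (f : ι → α → α)
    (P : α → Prop) [DecidablePred P] (m : α × ι → α)
    (hm : ∀ p, m p = p.1 ∨ m p = f p.2 p.1)
    (hinj : ∀ p p' : α × ι, P p.1 → P (f p.2 p.1) → P p'.1 → P (f p'.2 p'.1) →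
      m p = m p' → p = p')
    (h3 : ∀ y, P y → 3 ≤ (Finset.univ.filter (fun i : ι => P (f i y))).card)
    (Y : Finset α) (hY : ∀ y ∈ Y, P y) :
    2 * Y.card ≤ (((Y ×ˢ (Finset.univ : Finset ι)).filter (fun p => P (f p.2 p.1))).image
      (fun p => f p.2 p.1)).card := by
  set E := (Y ×ˢ (Finset.univ : Finset ι)).filter (fun p => P (f p.2 p.1)) with hE
  have hEcard : 3 * Y.card ≤ E.card := by
    have : E.card = ∑ y ∈ Y, (Finset.univ.filter (fun i : ι => P (f i y))).card := by
      rw [hE, Finset.card_filter, Finset.sum_product]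
      refine Finset.sum_congr rfl fun y _ => ?_
      rw [Finset.card_filter]
    rw [this]
    calc 3 * Y.card = ∑ y ∈ Y, 3 := by simp [mul_comm]
      _ ≤ _ := Finset.sum_le_sum fun y hy => h3 y (hY y hy)
  have hle : E.card ≤ (Y ∪ E.image (fun p => f p.2 p.1)).card := by
    refine Finset.card_le_card_of_injOn m ?_ ?_
    · intro p hp
      have hp' : p ∈ E := hp
      have hpY : p.1 ∈ Y := by
        rw [hE, Finset.mem_filter, Finset.mem_product] at hp'
        exact hp'.1.1
      rw [Finset.mem_coe]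
      rcases hm p with h | h
      · rw [h]
        exact Finset.mem_union_left _ hpY
      · rw [h]
        exact Finset.mem_union_right _ (Finset.mem_image_of_mem (fun p => f p.2 p.1) hp')
    · intro p hp p' hp' h
      have hp1 : p ∈ E := hp
      have hp2 : p' ∈ E := hp'
      rw [hE, Finset.mem_filter, Finset.mem_product] at hp1 hp2
      exact hinj p p' (hY _ hp1.1.1) hp1.2 (hY _ hp2.1.1) hp2.2 h
  have := Finset.card_union_le Y (E.image (fun p => f p.2 p.1))
  omega

theorem exists_m : ∃ m : (Fin 2 → ℝ) × Fin 9 → (Fin 2 → ℝ),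
    (∀ p, m p = p.1 ∨ m p = act p.2 p.1) ∧
    ∀ p p' : (Fin 2 → ℝ) × Fin 9, p.1 ∈ Q → act p.2 p.1 ∈ Q → p'.1 ∈ Q → act p'.2 p'.1 ∈ Q →
      m p = m p' → p = p' := by
  classical
  obtain ⟨B, h1, h2, h3⟩ := exists_valuation
  obtain ⟨m, hm1, hm2⟩ : ∃ m : (Fin 2 → ℝ) × Fin 9 → (Fin 2 → ℝ),
      (∀ p, N B (act p.2 p.1) ≤ N B p.1 → m p = p.1) ∧
      (∀ p, ¬ N B (act p.2 p.1) ≤ N B p.1 → m p = act p.2 p.1) := by
    refine ⟨fun p => if N B (act p.2 p.1) ≤ N B p.1 then p.1 else act p.2 p.1,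
      fun p hp => ?_, fun p hp => ?_⟩
    · dsimp only
      rw [if_pos hp]
    · dsimp only
      rw [if_neg hp]
  refine ⟨m, fun p => ?_, ?_⟩
  · by_cases hc : N B (act p.2 p.1) ≤ N B p.1
    · exact Or.inl (hm1 p hc)
    · exact Or.inr (hm2 p hc)
  have key : ∀ p : (Fin 2 → ℝ) × Fin 9, p.1 ∈ Q → act p.2 p.1 ∈ Q → ∀ z : Fin 2 → ℝ, m p = z →
      z ≠ 0 ∧ ∃ b : Bool,
        B.valuation ((((row (p.2, b)).1 : ℝ) * z 0 + (row (p.2, b)).2 * z 1) / 67) ≤ N B z ∧
        (if b then z = act p.2 p.1 else z = p.1) := by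
    intro p hpQ hpQ' z hz
    by_cases hc : N B (act p.2 p.1) ≤ N B p.1
    · rw [hm1 p hc] at hz
      subst hz
      refine ⟨Q_ne_zero hpQ, false, ?_, by simp⟩
      refine le_trans ?_ hc
      have e : (((row (p.2, false)).1 : ℝ) * p.1 0 + (row (p.2, false)).2 * p.1 1) / 67 =
          act p.2 p.1 0 := by
        rw [act_zero]
        rfl
      rw [e]
      exact le_max_left _ _
    · rw [hm2 p hc] at hz
      refine ⟨?_, true, ?_, by simp [hz.symm]⟩
      · rw [← hz]
        exact Q_ne_zero hpQ'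
      · have e : (((row (p.2, true)).1 : ℝ) * z 0 + (row (p.2, true)).2 * z 1) / 67 =
            p.1 0 := by
          rw [inv_zero p.2 p.1, ← hz]
          show (((mD p.2 : ℤ) : ℝ) * act p.2 p.1 0 + ((- mB p.2 : ℤ) : ℝ) * act p.2 p.1 1) / 67 = _
          push_cast
          ring
        rw [e, ← hz]
        push Not at hc
        exact le_trans (le_max_left _ _) hc.le
  intro p p' hp1 hp2 hp1' hp2' hpp
  obtain ⟨hz, b, hb1, hb2⟩ := key p hp1 hp2 _ rfl
  obtain ⟨-, b', hb1', hb2'⟩ := key p' hp1' hp2' _ hpp.symm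
  have := excl B h1 h2 h3 _ hz _ _ hb1 hb1'
  simp only [Prod.mk.injEq] at this
  obtain ⟨hi, hbb⟩ := this
  subst hbb
  have hp1 : p.1 = p'.1 := by
    cases b
    · simp only [Bool.false_eq_true, if_false] at hb2 hb2'
      exact hb2.symm.trans hb2'
    · simp only [if_true] at hb2 hb2'
      rw [← hi] at hb2'
      exact act_inj p.2 (hb2.symm.trans hb2')
  exact Prod.ext hp1 hi

theorem exists_choice : ∃ (σ : Q × Bool → Fin 9), (∀ x, act (σ x) x.1 ∈ Q) ∧
    Function.Injective (fun x : Q × Bool => act (σ x) x.1) := by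
  classical
  obtain ⟨m, hm1, hm2⟩ := exists_m
  have expand := comb act (fun y => y ∈ Q) m hm1 hm2 (fun y hy => by
    obtain ⟨s, hs, hs2⟩ := three y hy
    rw [← hs]
    exact Finset.card_le_card fun i hi => Finset.mem_filter.mpr ⟨Finset.mem_univ _, hs2 i hi⟩)
  let t : Q × Bool → Finset (Fin 2 → ℝ) := fun x =>
    (Finset.univ.filter (fun i : Fin 9 => act i x.1 ∈ Q)).image (fun i => act i x.1)
  have hall : ∀ s : Finset (Q × Bool), s.card ≤ (s.biUnion t).card := by
    intro s
    let Y : Finset (Fin 2 → ℝ) := s.image (fun x => (x.1 : Fin 2 → ℝ))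
    have hY : ∀ y ∈ Y, y ∈ Q := by
      intro y hy
      obtain ⟨x, -, rfl⟩ := Finset.mem_image.mp hy
      exact x.1.2
    have h1 : s.card ≤ 2 * Y.card := by
      have : s.card ≤ (Y ×ˢ (Finset.univ : Finset Bool)).card := by
        refine Finset.card_le_card_of_injOn (fun x => ((x.1 : Fin 2 → ℝ), x.2)) ?_ ?_
        · intro x hx
          show ((x.1 : Fin 2 → ℝ), x.2) ∈ (Y ×ˢ (Finset.univ : Finset Bool) : Finset _)
          rw [Finset.mem_product]
          exact ⟨Finset.mem_image_of_mem (fun x : Q × Bool => (x.1 : Fin 2 → ℝ)) hx,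
            Finset.mem_univ _⟩
        · intro x _ y _ hxy
          simp only [Prod.mk.injEq] at hxy
          exact Prod.ext (Subtype.ext hxy.1) hxy.2
      rw [Finset.card_product] at this
      simp only [Finset.card_univ, Fintype.card_bool] at this
      omega
    refine h1.trans ((expand Y hY).trans (Finset.card_le_card ?_))
    intro z hz
    obtain ⟨⟨y, i⟩, hp, rfl⟩ := Finset.mem_image.mp hz
    rw [Finset.mem_filter, Finset.mem_product] at hp
    obtain ⟨x, hx, rfl⟩ := Finset.mem_image.mp hp.1.1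
    rw [Finset.mem_biUnion]
    exact ⟨x, hx, Finset.mem_image.mpr ⟨i, Finset.mem_filter.mpr ⟨Finset.mem_univ _, hp.2⟩, rfl⟩⟩
  obtain ⟨f, hf1, hf2⟩ := (Finset.all_card_le_biUnion_card_iff_exists_injective t).mp hall
  have h : ∀ x, ∃ i : Fin 9, act i x.1 ∈ Q ∧ act i x.1 = f x := by
    intro x
    obtain ⟨i, hi, hi2⟩ := Finset.mem_image.mp (hf2 x)
    exact ⟨i, (Finset.mem_filter.mp hi).2, hi2⟩
  choose σ hσ1 hσ2 using h
  refine ⟨σ, hσ1, ?_⟩
  have : (fun x : Q × Bool => act (σ x) x.1) = f := funext hσ2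
  rw [this]
  exact hf1

end Pool.Agent.Q91.Sq
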